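import Mathlib
import Pool.Agent.Lib.MP_5bb951_co.H33.OffMiddle

set_option autoImplicit false
set_option linter.unusedSectionVars false

open MvPolynomial

namespace Pool.Agent.Results.MP_5bb951_co.ExactOffMiddle

universe u v

section Defs

variable (P : Type u) [PartialOrder P] [Fintype P] [GradeOrder ℕ P] (k : Type v) [Field k]

/-- Eulerian: every interval with at least two elements has as many elements of even rank as of
odd rank. -/
def IsEulerian : Prop :=
  ∀ x y : P, x < y →
    Nat.card {z : P // x ≤ z ∧ z ≤ y ∧ Even (grade ℕ z)} =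
      Nat.card {z : P // x ≤ z ∧ z ≤ y ∧ ¬ Even (grade ℕ z)}

/-- The ideal of `k[x : x ∈ P]` generated by the products of two incomparable elements; the
quotient is the face ring `k[P]` of the order complex of `P`. -/
noncomputable def faceIdeal : Ideal (MvPolynomial P k) :=
  Ideal.span {f : MvPolynomial P k | ∃ x y : P, ¬ x ≤ y ∧ ¬ y ≤ x ∧ f = X x * X y}

/-- `θ_i`: the sum of the elements of rank `i`. -/
noncomputable def theta (i : ℕ) : MvPolynomial P k :=
  ∑ x : P, if grade ℕ x = i then (X x : MvPolynomial P k) else 0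

/-- `P` (of rank `n`) is Cohen-Macaulay over `k`: the linear system of parameters
`θ_0, …, θ_n` is a regular sequence on the face ring. -/
def IsCohenMacaulay (n : ℕ) : Prop :=
  RingTheory.Sequence.IsWeaklyRegular (MvPolynomial P k ⧸ faceIdeal P k)
    ((List.range (n + 1)).map fun i : ℕ => Ideal.Quotient.mk (faceIdeal P k) (theta P k i))

/-- The ideal of `k[x : x ∈ P]` whose quotient is `R = k[P] / (θ_0, …, θ_n)`. -/
noncomputable def paramIdeal (n : ℕ) : Ideal (MvPolynomial P k) :=
  faceIdeal P k ⊔ Ideal.span (Set.range fun i : Fin (n + 1) => theta P k i)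

/-- The projection of `k[x : x ∈ P]` onto `R = k[P] / (θ_0, …, θ_n)`, as a `k`-linear map. -/
noncomputable def proj (n : ℕ) :
    MvPolynomial P k →ₗ[k] MvPolynomial P k ⧸ paramIdeal P k n :=
  (Ideal.Quotient.mkₐ k (paramIdeal P k n)).toLinearMap

/-- The graded piece `R_j`: the classes of the homogeneous polynomials of degree `j`. -/
noncomputable def piece (n j : ℕ) : Submodule k (MvPolynomial P k ⧸ paramIdeal P k n) :=
  (homogeneousSubmodule P k j).map (proj P k n)

variable {P k}

/-- Multiplication by `ω = ∑ c_x x` on `R`. -/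
noncomputable def mulOmega (c : P → k) (n : ℕ) :
    MvPolynomial P k ⧸ paramIdeal P k n →ₗ[k] MvPolynomial P k ⧸ paramIdeal P k n :=
  LinearMap.mulLeft k (proj P k n (∑ x : P, MvPolynomial.C (c x) * X x))

/-- `ker ω_i`, the kernel of multiplication by `ω` on `R_i`. -/
noncomputable def kerOmega (c : P → k) (n i : ℕ) :
    Submodule k (MvPolynomial P k ⧸ paramIdeal P k n) :=
  piece P k n i ⊓ LinearMap.ker (mulOmega c n)

/-- `im ω_{i-1}`, the image of `R_{i-1}` under multiplication by `ω` (zero for `i = 0`). -/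
noncomputable def imOmega (c : P → k) (n : ℕ) :
    ℕ → Submodule k (MvPolynomial P k ⧸ paramIdeal P k n)
  | 0 => ⊥
  | i + 1 => (piece P k n i).map (mulOmega c n)

end Defs

section Proof

variable {P : Type u} [PartialOrder P] [Fintype P] [BoundedOrder P] [GradeOrder ℕ P]
variable {k : Type v} [Field k]

open Pool.Agent.Lib.MP_5bb951_co

theorem paramIdeal_eq (n : ℕ) : paramIdeal P k n = JJ P k (Finset.range (n + 1)) :=
  JJ_range_eq (P := P) (k := k) (n + 1)

theorem proj_eq_zero {n : ℕ} {p : MvPolynomial P k} :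
    proj P k n p = 0 ↔ p ∈ paramIdeal P k n := by
  change Ideal.Quotient.mk (paramIdeal P k n) p = 0 ↔ _
  exact Ideal.Quotient.eq_zero_iff_mem

theorem proj_mul {n : ℕ} (p q : MvPolynomial P k) :
    proj P k n (p * q) = proj P k n p * proj P k n q := by
  change Ideal.Quotient.mk (paramIdeal P k n) (p * q) = _
  exact map_mul _ _ _

theorem mulOmega_proj (c : P → k) {n : ℕ} (p : MvPolynomial P k) :
    mulOmega c n (proj P k n p) =
      proj P k n ((∑ x : P, MvPolynomial.C (c x) * X x) * p) := by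
  rw [proj_mul]
  rfl

theorem om_homogeneous (c : P → k) :
    (∑ x : P, MvPolynomial.C (c x) * X x : MvPolynomial P k).IsHomogeneous 1 := by
  apply IsHomogeneous.sum
  intro x _
  apply IsHomogeneous.C_mul
  exact isHomogeneous_X k x

theorem mul_mem_piece (c : P → k) (n j : ℕ) :
    (piece P k n j).map (mulOmega c n) ≤ piece P k n (j + 1) := by
  rintro _ ⟨_, ⟨p, hp, rfl⟩, rfl⟩
  refine ⟨(∑ x : P, MvPolynomial.C (c x) * X x) * p, ?_, (mulOmega_proj c p).symm⟩
  have h := (om_homogeneous c).mul (n := j) hp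
  rw [add_comm 1 j] at h
  exact h

theorem om_sq_mem [CharP k 2] {m : ℕ} (hm : rk (⊤ : P) = 2 * m + 1) (c : P → k) :
    (∑ x : P, MvPolynomial.C (c x) * X x : MvPolynomial P k) *
      (∑ x : P, MvPolynomial.C (c x) * X x) ∈ paramIdeal P k (2 * m + 1) := by
  have hch : CharP (MvPolynomial P k) 2 := inferInstance
  rw [← pow_two, sum_pow_char]
  apply Ideal.sum_mem
  intro x _
  rw [mul_pow]
  apply Ideal.mul_mem_left
  rw [paramIdeal_eq, pow_two]
  apply X_sq_mem
  have h1 : rk x ≤ rk (⊤ : P) := grade_mono le_top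
  omega

theorem im_le_piece (c : P → k) (n i : ℕ) : imOmega c n i ≤ piece P k n i := by
  cases i with
  | zero => exact bot_le
  | succ i => exact mul_mem_piece c n i

theorem im_le_ker [CharP k 2] {m : ℕ} (hm : rk (⊤ : P) = 2 * m + 1) (c : P → k) (i : ℕ) :
    imOmega c (2 * m + 1) i ≤ kerOmega c (2 * m + 1) i := by
  refine le_inf (im_le_piece c _ i) ?_
  cases i with
  | zero => exact bot_le
  | succ i =>
    rintro _ ⟨_, ⟨p, hp, rfl⟩, rfl⟩
    rw [LinearMap.mem_ker, mulOmega_proj, mulOmega_proj, proj_eq_zero, ← mul_assoc]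
    exact Ideal.mul_mem_right _ _ (om_sq_mem hm c)

theorem ker_le_im [Algebra (ZMod 2) k] [CharP k 2] {c : P → k}
    (hc : AlgebraicIndependent (ZMod 2) c) (h0 : rk (⊥ : P) = 0) (ht : Thin P) {m : ℕ}
    (hm : rk (⊤ : P) = 2 * m + 1) (hreg : ∀ z : P, RegProp k z) {i : ℕ} (hi : i ≠ m) :
    kerOmega c (2 * m + 1) i ≤ imOmega c (2 * m + 1) i := by
  rintro _ ⟨⟨p, hp, rfl⟩, hker⟩
  rw [SetLike.mem_coe, LinearMap.mem_ker, mulOmega_proj, proj_eq_zero, paramIdeal_eq] at hker
  obtain ⟨q, hq, hq0, hpq⟩ := off_middle_poly hc h0 ht hm hreg hi hp hker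
  have h1 : proj P k (2 * m + 1) p = mulOmega c (2 * m + 1) (proj P k (2 * m + 1) q) := by
    rw [mulOmega_proj, ← sub_eq_zero, ← map_sub, proj_eq_zero, paramIdeal_eq]
    exact hpq
  cases i with
  | zero =>
    rw [hq0 rfl, map_zero, map_zero] at h1
    rw [h1]
    exact Submodule.zero_mem _
  | succ i =>
    rw [h1]
    exact Submodule.mem_map_of_mem (Submodule.mem_map_of_mem hq)

theorem piece_eq_bot {m : ℕ} (h0 : rk (⊥ : P) = 0) (hm : rk (⊤ : P) = 2 * m + 1) {i : ℕ}
    (hi : 2 * m < i) : piece P k (2 * m + 1) i = ⊥ := by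
  rw [eq_bot_iff]
  rintro _ ⟨p, hp, rfl⟩
  rw [Submodule.mem_bot, proj_eq_zero, paramIdeal_eq]
  exact big_degree h0 hm hi hp

theorem piece_finite (n j : ℕ) : Module.Finite k (piece P k n j) := by
  rw [Module.Finite.iff_fg]
  exact Submodule.FG.map (proj P k n) (homogeneousSubmodule_fg (σ := P) (R := k) j)

theorem finrank_split (c : P → k) (n i : ℕ) :
    Module.finrank k (piece P k n i) =
      Module.finrank k (kerOmega c n i) + Module.finrank k (imOmega c n (i + 1)) := by
  have := piece_finite (P := P) (k := k) n i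
  have h1 := LinearMap.finrank_range_add_finrank_ker ((mulOmega c n).domRestrict (piece P k n i))
  rw [LinearMap.range_domRestrict, LinearMap.ker_domRestrict] at h1
  have h2 : Module.finrank k (Submodule.comap (piece P k n i).subtype
      (LinearMap.ker (mulOmega c n))) = Module.finrank k (kerOmega c n i) := by
    rw [kerOmega, ← Submodule.map_comap_subtype]
    exact (LinearEquiv.finrank_eq (Submodule.equivMapOfInjective _
      (Submodule.subtype_injective _) _))
  rw [h2] at h1
  rw [← h1, add_comm]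
  rfl

theorem alternating (K I d : ℕ → ℤ) (m : ℕ) (hd : ∀ i, d i = K i + I (i + 1))
    (hKI : ∀ i, i ≠ m → K i = I i) (hI0 : I 0 = 0) (hI : I (2 * m + 1) = 0) :
    (-1 : ℤ) ^ m * ∑ i ∈ Finset.range (2 * m + 1), (-1 : ℤ) ^ i * d i = K m - I m := by
  have h1 : ∀ n : ℕ, ∑ i ∈ Finset.range n, (-1 : ℤ) ^ i * (I i + I (i + 1)) =
      I 0 - (-1 : ℤ) ^ n * I n := by
    intro n
    induction n with
    | zero => simp
    | succ n ih =>
      rw [Finset.sum_range_succ, ih, pow_succ]
      ring
  have h2 : ∑ i ∈ Finset.range (2 * m + 1), (-1 : ℤ) ^ i * d i =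
      ∑ i ∈ Finset.range (2 * m + 1), (-1 : ℤ) ^ i * (I i + I (i + 1)) +
      ∑ i ∈ Finset.range (2 * m + 1), (if i = m then (-1 : ℤ) ^ m * (K m - I m) else 0) := by
    rw [← Finset.sum_add_distrib]
    apply Finset.sum_congr rfl
    intro i _
    rw [hd]
    by_cases h : i = m
    · rw [if_pos h, h]
      ring
    · rw [if_neg h, hKI i h]
      ring
  rw [h2, h1, hI0, hI, Finset.sum_ite_eq', if_pos (Finset.mem_range.2 (by omega))]
  have h3 : (-1 : ℤ) ^ m * (-1 : ℤ) ^ m = 1 := by
    rw [← pow_add, ← two_mul, pow_mul]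
    norm_num
  linear_combination (K m - I m) * h3

/-- For a Cohen-Macaulay Eulerian poset of rank `2m+1` and a generic linear form `ω` in
characteristic two, multiplication by `ω` on `R = k[P]/(θ)` is exact in every degree but the middle
degree `m`, where the dimension of the cohomology is the Charney-Davis number. -/
theorem result (m : ℕ) (P : Type u) [PartialOrder P] [Fintype P] [BoundedOrder P]
    [GradeOrder ℕ P] (hbot : grade ℕ (⊥ : P) = 0) (htop : grade ℕ (⊤ : P) = 2 * m + 1)
    (hE : IsEulerian P) (k : Type v) [Field k] [Algebra (ZMod 2) k]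
    (hCM : IsCohenMacaulay P k (2 * m + 1)) (c : P → k) (hc : AlgebraicIndependent (ZMod 2) c) :
    (∀ i : ℕ, i ≠ m → kerOmega c (2 * m + 1) i = imOmega c (2 * m + 1) i) ∧
    imOmega c (2 * m + 1) m ≤ kerOmega c (2 * m + 1) m ∧
    (∀ i : ℕ, Module.Finite k (piece P k (2 * m + 1) i)) ∧
    (∀ i : ℕ, 2 * m < i → piece P k (2 * m + 1) i = ⊥) ∧
    (-1 : ℤ) ^ m * ∑ i ∈ Finset.range (2 * m + 1),
        (-1 : ℤ) ^ i * (Module.finrank k (piece P k (2 * m + 1) i) : ℤ) =
      (Module.finrank k (kerOmega c (2 * m + 1) m) : ℤ) -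
        (Module.finrank k (imOmega c (2 * m + 1) m) : ℤ) := by
  have hch : CharP k 2 := charP_of_injective_algebraMap (algebraMap (ZMod 2) k).injective 2
  have hNZ := NZ.all (NZ_of_regular hCM) (2 * m + 2) le_rfl
  have hreg : ∀ z : P, RegProp k z := by
    intro z
    apply regProp_of_NZ hbot hNZ
    have h1 : grade ℕ z ≤ grade ℕ (⊤ : P) := grade_mono le_top
    rw [htop] at h1
    exact h1.trans (Nat.le_succ _)
  have hthin : Thin P := thin_of_eulerian hE
  have hker : ∀ i : ℕ, i ≠ m → kerOmega c (2 * m + 1) i = imOmega c (2 * m + 1) i :=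
    fun i hi => le_antisymm (ker_le_im hc hbot hthin htop hreg hi) (im_le_ker htop c i)
  refine ⟨hker, im_le_ker htop c m, fun i => piece_finite _ _,
    fun i hi => piece_eq_bot hbot htop hi, ?_⟩
  apply alternating (fun i => (Module.finrank k (kerOmega c (2 * m + 1) i) : ℤ))
    (fun i => (Module.finrank k (imOmega c (2 * m + 1) i) : ℤ))
    (fun i => (Module.finrank k (piece P k (2 * m + 1) i) : ℤ)) m
  · intro i
    rw [finrank_split c (2 * m + 1) i]
    push_cast
    rfl
  · intro i hi
    rw [hker i hi]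
  · rw [Nat.cast_eq_zero]
    exact finrank_bot k _
  · have h1 : imOmega c (2 * m + 1) (2 * m + 1) = (⊥ : Submodule k _) := by
      rw [eq_bot_iff, ← piece_eq_bot (k := k) hbot htop (i := 2 * m + 1) (by omega)]
      exact im_le_piece c _ _
    rw [h1, finrank_bot, Nat.cast_zero]

end Proof

end Pool.Agent.Results.MP_5bb951_co.ExactOffMiddle
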